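import Pool.Agent.H.MP_53e2a7_pr.he.FinS

/-!
# MP_53e2a7_pr: coexistence is possible for at most countably many `β < 1`
-/

namespace Pool.Agent.Results.MP_53e2a7_pr.CountablyManyRates

open MeasureTheory

/-- Let `d ≥ 2` and let `ν` give rise to a bounded shape. For all but countably many rates
`β ∈ (0, 1)` of type two coexistence is not possible, even in some version of the process. -/
theorem result (d : ℕ) [NeZero d] (hd : 2 ≤ d) (ν : Measure ℕ) [IsProbabilityMeasure ν]
    (h : Frog81.HasBoundedShape d ν) :
    {β : ℝ | 0 < β ∧ β < 1 ∧ Frog81.CoexistenceSome d ν β}.Countable :=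
  Frog81.some_countable hd ν h

end Pool.Agent.Results.MP_53e2a7_pr.CountablyManyRates
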