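import Pool.Agent.H.MP_53e2a7_pr.h81.OneDim
import Pool.Agent.H.MP_53e2a7_pr.h81.Conv

/-!
# MP_53e2a7_pr: the question in dimension one
-/

namespace Pool.Agent.Results.MP_53e2a7_pr.DimensionOne

open MeasureTheory

/-- In dimension one, for every law `ν` that gives rise to a bounded shape and every rate
`β ∈ (0, 1]` of type two, coexistence is possible; and every `ν` with finite mean and at least five
particles per site gives rise to a bounded shape. -/
theorem result :
    (∀ (ν : Measure ℕ) [IsProbabilityMeasure ν], Frog81.HasBoundedShape 1 ν →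
      ∀ β : ℝ, 0 < β → β ≤ 1 → Frog81.CoexistencePossible 1 ν β) ∧
    (∀ (ν : Measure ℕ) [IsProbabilityMeasure ν], ν {m | m < 5} = 0 →
      ∫⁻ m, (m : ENNReal) ∂ν ≠ ⊤ → Frog81.HasBoundedShape 1 ν) :=
  ⟨fun ν _ h β h0 h1 => Frog81.one_dim ν h β h0 h1, fun ν _ h5 hm => Frog81.shape_five ν h5 hm⟩

end Pool.Agent.Results.MP_53e2a7_pr.DimensionOne
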