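import Pool.Agent.H.MP_53e2a7_pr.h81.IfHalf

/-!
# MP_53e2a7_pr: the if-half of Q1 in every dimension
-/

namespace Pool.Agent.Results.MP_53e2a7_pr.IfHalf

open MeasureTheory

/-- For every dimension `d ≥ 1` and every law `ν` of the number of particles per site that gives
rise to a bounded shape, coexistence is possible for equal rates (`β = 1`). -/
theorem result (d : ℕ) [NeZero d] (ν : Measure ℕ) [IsProbabilityMeasure ν]
    (h : Frog81.HasBoundedShape d ν) : Frog81.CoexistencePossible d ν 1 :=
  Frog81.if_half ν h

end Pool.Agent.Results.MP_53e2a7_pr.IfHalf
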