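import Pool.Agent.H.MP_53e2a7_pr.hs.Ase

/-!
# MP_53e2a7_pr: if the slow type survives then the two-type process has the growth of the slow type
-/

namespace Pool.Agent.Results.MP_53e2a7_pr.SlowGrowth

open MeasureTheory

/-- Let `d ≥ 2`, let `ν` give rise to a bounded shape and let `0 < β < 1`. Almost surely, for every
`z ≠ 0`: the two-type process exists if `0` and `z` are occupied; in every version of it the time
at which a site `y` is visited is at most `T(z, y) / β`, the time at which type two alone, started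
from `z`, would visit `y`; and if type two survives, then for every `ε > 0` it is at least
`(1 - ε) T(z, y) / β` for all but finitely many `y`. -/
theorem result (d : ℕ) [NeZero d] (hd : 2 ≤ d) (ν : Measure ℕ) [IsProbabilityMeasure ν]
    (h : Frog81.HasBoundedShape d ν) (β : ℝ) (hβ0 : 0 < β) (hβ1 : β < 1) :
    ∀ᵐ ω ∂ Frog81.envLaw d ν, ∀ z : Frog81.Site d, z ≠ 0 →
      (1 ≤ (ω 0).1 → 1 ≤ (ω z).1 → ∃ t θ, Frog81.IsTwoType β z ω t θ) ∧
      ∀ (t : Frog81.Site d → ENNReal) (θ : Frog81.Site d → Frog81.Kind),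
        Frog81.IsTwoType β z ω t θ →
          (∀ y, t y ≤ Frog81.T ω z y / ENNReal.ofReal β) ∧
          (Frog81.Activates ω t θ Frog81.Kind.two → ∀ ε : ℝ, 0 < ε →
            {y | t y < ENNReal.ofReal ((1 - ε) / β) * Frog81.T ω z y}.Finite) :=
  Frog81.ae_slow_ex hd ν h hβ0 hβ1

end Pool.Agent.Results.MP_53e2a7_pr.SlowGrowth
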